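import Pool.Agent.W_MP_3b55a2_co.Proof

set_option autoImplicit false

namespace Pool.Agent.Results.MP_3b55a2_co.SecondRatioLogConcave

open Pool.Agent.W_MP_3b55a2_co

/-- For every `l ≥ 1` the sequence `x_l(m)`, `m ≥ l+1`, of second-order ratios of the
Boros-Moll numbers is strictly log-concave:
`x_l(m-1) x_l(m+1) < x_l(m)^2` for all `m ≥ l+2`. -/
theorem result : ∀ l m : ℕ, 1 ≤ l → l + 2 ≤ m →
    secondRatio l (m - 1) * secondRatio l (m + 1) < secondRatio l m ^ 2 :=
  strict_log_concave

end Pool.Agent.Results.MP_3b55a2_co.SecondRatioLogConcave
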